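import Pool.Agent.Lib.MP_6bc78b_nt.MS.P2.H6.SmoB

set_option autoImplicit false

open Filter Topology Finset

namespace Pool.Agent.Lib.MP_6bc78b_nt.MS.P2.H6

open Pool.Agent.Lib.MP_6bc78b_nt.LS (primSum primSum_mono primSum_nonneg)

theorem primSum_const_le {q : ℕ} (hq : 0 < q) {B : ℝ} (hB : 0 ≤ B) :
    primSum q (fun _ => B) ≤ q.totient * B := by
  have : NeZero q := ⟨by omega⟩
  unfold primSum
  calc _ ≤ ∑ _χ : DirichletCharacter ℂ q, B := by
        refine Finset.sum_le_sum fun χ _ => ?_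
        split_ifs
        · exact le_rfl
        · exact hB
    _ = q.totient * B := by
        rw [Finset.sum_const, nsmul_eq_mul, Finset.card_univ, ← Nat.card_eq_fintype_card,
          DirichletCharacter.card_eq_totient_of_hasEnoughRootsOfUnity ℂ q]

/-- module SMO -/
theorem smo (hdiv : DivStatement) (hspl : SplStatement) (habl : AblStatement)
    (hwtt : WttStatement) (hwtv : WtvStatement) (hpvc : PvcStatement) : SmoStatement := by
  intro th xi hth hth2 hxi j a ha h hh
  have hs : Smooth h := by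
    rcases hh with rfl | rfl
    · exact smooth_one
    · exact smooth_lg
  obtain ⟨C, M, K, hC, hev⟩ := VV_bound hdiv hspl habl hwtt hwtv hpvc hth hth2 hxi j ha hs
  refine ⟨0, fun A _ => ?_⟩
  -- the bound
  have hbound : ∀ᶠ T : ℝ in atTop,
      EE th j T ⌊Real.log T ^ A⌋₊ ⌊T ^ th⌋₊ (a T * hi (T ^ xi) h) ≤
        (C + 1) * 2 ^ (2 ^ (K + 2)) * Real.log T ^ (M + 2 ^ (K + 2)) *
          (T ^ (1 - (xi - 2 * th)) + T ^ th) := by
    filter_upwards [hev, eventually_ge_atTop (3 : ℝ)] with T hT hT3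
    have hT0 : 0 < T := by linarith
    have hT1 : 1 ≤ T := by linarith
    have hL : 1 ≤ Real.log T := by
      rw [Real.le_log_iff_exp_le hT0]
      have := Real.exp_one_lt_d9
      linarith
    set L := Real.log T with hLdef
    have hL0 : 0 < L := by linarith
    have hLA : 1 ≤ ⌊L ^ A⌋₊ := by
      rw [Nat.le_floor_iff (by positivity)]
      exact_mod_cast one_le_pow₀ hL
    set y : ℝ := T ^ th with hy
    have hy1 : 1 ≤ y := Real.one_le_rpow hT1 hth.le
    have hyT : y ≤ T := by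
      calc T ^ th ≤ T ^ (1 : ℝ) := Real.rpow_le_rpow_of_exponent_le hT1 (by linarith)
        _ = T := Real.rpow_one T
    have hy0 : 0 < y := by linarith
    -- the sum over q
    have hQQ : ∀ s : ℕ, 1 ≤ s → ∀ d : ℕ, d ∣ s →
        QQ j T (a T * hi (T ^ xi) h) s d
          ((Finset.Ioc ⌊L ^ A⌋₊ ⌊y⌋₊).filter (fun q => ((q * s : ℕ) : ℝ) ≤ y)) ≤
          y / s * (C * L ^ M * dv s ^ K * y * T ^ (1 - xi) + 1) := by
      intro s hs1 d hds
      have hs0 : (0 : ℝ) < s := by exact_mod_cast hs1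
      have hdv0 : 0 ≤ dv s := Nat.cast_nonneg _
      set R : ℝ := C * L ^ M * dv s ^ K * y * T ^ (1 - xi) + 1 with hR
      have hR0 : 0 ≤ R := by positivity
      have hq1 : ∀ q ∈ (Finset.Ioc ⌊L ^ A⌋₊ ⌊y⌋₊).filter (fun q => ((q * s : ℕ) : ℝ) ≤ y),
          1 / (Real.sqrt q * (q.totient : ℝ)) *
            primSum q (fun ψ => ‖VV j T (a T * hi (T ^ xi) h) (q * s) d ψ‖) ≤ R := by
        intro q hq
        rw [Finset.mem_filter, Finset.mem_Ioc] at hq
        have hq1 : 1 < q := by omega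
        have hq0 : 0 < q := by omega
        have hqr : (1 : ℝ) ≤ q := by exact_mod_cast hq0
        have hsq : 1 ≤ Real.sqrt q := by
          rw [Real.one_le_sqrt]; exact hqr
        have hφ : (0 : ℝ) < q.totient := by exact_mod_cast Nat.totient_pos.2 hq0
        set V : ℝ := C * L ^ M * dv s ^ K * ((q * s : ℕ) : ℝ) * T ^ (1 - xi) * Real.sqrt q + 1
          with hV
        have hV0 : 0 ≤ V := by positivity
        have h1 : primSum q (fun ψ => ‖VV j T (a T * hi (T ^ xi) h) (q * s) d ψ‖) ≤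
            q.totient * V :=
          (primSum_mono q _ (fun _ => V) fun ψ hψ => hT q s d hq1 hs1 hds hq.2 ψ hψ).trans
            (primSum_const_le hq0 hV0)
        calc 1 / (Real.sqrt q * (q.totient : ℝ)) *
              primSum q (fun ψ => ‖VV j T (a T * hi (T ^ xi) h) (q * s) d ψ‖)
            ≤ 1 / (Real.sqrt q * (q.totient : ℝ)) * (q.totient * V) :=
              mul_le_mul_of_nonneg_left h1 (by positivity)
          _ = V / Real.sqrt q := by field_simp
          _ = C * L ^ M * dv s ^ K * ((q * s : ℕ) : ℝ) * T ^ (1 - xi) + 1 / Real.sqrt q := by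
              rw [hV]; field_simp
          _ ≤ C * L ^ M * dv s ^ K * y * T ^ (1 - xi) + 1 := by
              refine add_le_add ?_ ?_
              · refine mul_le_mul_of_nonneg_right ?_ (by positivity)
                exact mul_le_mul_of_nonneg_left hq.2 (by positivity)
              · rw [div_le_one (by positivity)]; exact hsq
      rw [QQ]
      refine (Finset.sum_le_sum hq1).trans ?_
      rw [Finset.sum_const, nsmul_eq_mul]
      refine mul_le_mul_of_nonneg_right ?_ hR0
      have hsub : (Finset.Ioc ⌊L ^ A⌋₊ ⌊y⌋₊).filter (fun q => ((q * s : ℕ) : ℝ) ≤ y) ⊆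
          Finset.Icc 1 ⌊y / s⌋₊ := by
        intro q hq
        rw [Finset.mem_filter, Finset.mem_Ioc] at hq
        rw [Finset.mem_Icc]
        refine ⟨by omega, Nat.le_floor ?_⟩
        rw [le_div_iff₀ hs0]
        have := hq.2
        push_cast at this
        exact this
      calc (((Finset.Ioc ⌊L ^ A⌋₊ ⌊y⌋₊).filter (fun q => ((q * s : ℕ) : ℝ) ≤ y)).card : ℝ)
          ≤ ((Finset.Icc 1 ⌊y / s⌋₊).card : ℝ) := by exact_mod_cast Finset.card_le_card hsub
        _ = (⌊y / s⌋₊ : ℝ) := by rw [Nat.card_Icc]; simp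
        _ ≤ y / s := Nat.floor_le (by positivity)
    -- the sum over s and d
    have hEE : EE th j T ⌊L ^ A⌋₊ ⌊y⌋₊ (a T * hi (T ^ xi) h) ≤
        ∑ s ∈ Finset.Icc 1 ⌊y⌋₊, dv s ^ (K + 1) / s.totient *
          ((C + 1) * L ^ M * y * (y * T ^ (1 - xi) + 1)) := by
      rw [EE]
      have hterm : ∀ s ∈ Finset.Icc 1 ⌊y⌋₊, 1 / ((s : ℝ) * (s.totient : ℝ)) *
          ∑ d ∈ s.divisors, (d : ℝ) * QQ j T (a T * hi (T ^ xi) h) s d
            ((Finset.Ioc ⌊L ^ A⌋₊ ⌊y⌋₊).filter (fun q => ((q * s : ℕ) : ℝ) ≤ y)) ≤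
          dv s ^ (K + 1) / s.totient * ((C + 1) * L ^ M * y * (y * T ^ (1 - xi) + 1)) := by
        intro s hs
        rw [Finset.mem_Icc] at hs
        have hs0 : (0 : ℝ) < s := by exact_mod_cast hs.1
        have hs1 : (1 : ℝ) ≤ s := by exact_mod_cast hs.1
        have hφ : (0 : ℝ) < s.totient := by exact_mod_cast Nat.totient_pos.2 hs.1
        have hdv1 : 1 ≤ dv s := one_le_dv (by omega)
        set R : ℝ := C * L ^ M * dv s ^ K * y * T ^ (1 - xi) + 1 with hR
        have hR0 : 0 ≤ R := by positivity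
        have h1 : ∑ d ∈ s.divisors, (d : ℝ) * QQ j T (a T * hi (T ^ xi) h) s d
            ((Finset.Ioc ⌊L ^ A⌋₊ ⌊y⌋₊).filter (fun q => ((q * s : ℕ) : ℝ) ≤ y)) ≤
            ∑ d ∈ s.divisors, (s : ℝ) * (y / s * R) := by
          refine Finset.sum_le_sum fun d hd => ?_
          have hds : d ∣ s := Nat.dvd_of_mem_divisors hd
          have hdle : (d : ℝ) ≤ s := by exact_mod_cast Nat.le_of_dvd hs.1 hds
          calc (d : ℝ) * QQ j T (a T * hi (T ^ xi) h) s d
                ((Finset.Ioc ⌊L ^ A⌋₊ ⌊y⌋₊).filter (fun q => ((q * s : ℕ) : ℝ) ≤ y))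
              ≤ (d : ℝ) * (y / s * R) :=
                mul_le_mul_of_nonneg_left (hQQ s hs.1 d hds) (by positivity)
            _ ≤ _ := mul_le_mul_of_nonneg_right hdle (by positivity)
        have h2 : ∑ d ∈ s.divisors, (s : ℝ) * (y / s * R) = dv s * (y * R) := by
          rw [Finset.sum_const, nsmul_eq_mul, dv]
          field_simp
        rw [h2] at h1
        have h3 : R ≤ (C + 1) * L ^ M * dv s ^ K * (y * T ^ (1 - xi) + 1) := by
          have e1 : 1 ≤ L ^ M := one_le_pow₀ hL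
          have e2 : 1 ≤ dv s ^ K := one_le_pow₀ hdv1
          have e3 : 1 ≤ L ^ M * dv s ^ K := one_le_mul_of_one_le_of_one_le e1 e2
          have e4 : 0 ≤ L ^ M * dv s ^ K * (y * T ^ (1 - xi)) := by positivity
          have e5 : 0 ≤ C * (L ^ M * dv s ^ K) := by positivity
          rw [hR]
          nlinarith
        calc 1 / ((s : ℝ) * (s.totient : ℝ)) *
              ∑ d ∈ s.divisors, (d : ℝ) * QQ j T (a T * hi (T ^ xi) h) s d
                ((Finset.Ioc ⌊L ^ A⌋₊ ⌊y⌋₊).filter (fun q => ((q * s : ℕ) : ℝ) ≤ y))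
            ≤ 1 / ((s : ℝ) * (s.totient : ℝ)) * (dv s * (y * R)) :=
              mul_le_mul_of_nonneg_left h1 (by positivity)
          _ ≤ 1 / (1 * (s.totient : ℝ)) * (dv s * (y * R)) := by
              refine mul_le_mul_of_nonneg_right ?_ (by positivity)
              exact one_div_le_one_div_of_le (by positivity)
                (mul_le_mul_of_nonneg_right hs1 hφ.le)
          _ ≤ 1 / (1 * (s.totient : ℝ)) * (dv s * (y *
              ((C + 1) * L ^ M * dv s ^ K * (y * T ^ (1 - xi) + 1)))) := by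
              refine mul_le_mul_of_nonneg_left ?_ (by positivity)
              refine mul_le_mul_of_nonneg_left ?_ (by positivity)
              exact mul_le_mul_of_nonneg_left h3 hy0.le
          _ = _ := by rw [pow_succ]; field_simp
      calc _ ≤ ∑ s ∈ (Finset.Icc 1 ⌊y⌋₊).filter Squarefree,
            dv s ^ (K + 1) / s.totient * ((C + 1) * L ^ M * y * (y * T ^ (1 - xi) + 1)) := by
            refine Finset.sum_le_sum fun s hs => hterm s (Finset.mem_filter.1 hs).1
        _ ≤ _ := by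
            refine Finset.sum_le_sum_of_subset_of_nonneg (Finset.filter_subset _ _) ?_
            intro s _ _
            have : 0 ≤ dv s := Nat.cast_nonneg _
            positivity
    refine hEE.trans ?_
    rw [← Finset.sum_mul]
    have hyfl : 1 ≤ ⌊y⌋₊ := by
      rw [Nat.le_floor_iff hy0.le]; exact_mod_cast hy1
    have h4 := hdiv.2.2.2.1 (K + 1) ⌊y⌋₊ hyfl
    have hfl1 : (1 : ℝ) ≤ ((⌊y⌋₊ : ℕ) : ℝ) := by exact_mod_cast hyfl
    have hlogfl : 1 + Real.log ((⌊y⌋₊ : ℕ) : ℝ) ≤ 2 * L := by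
      have : Real.log ((⌊y⌋₊ : ℕ) : ℝ) ≤ L :=
        Real.log_le_log (by linarith) ((Nat.floor_le hy0.le).trans hyT)
      linarith
    have hlog0 : 0 ≤ 1 + Real.log ((⌊y⌋₊ : ℕ) : ℝ) := by
      have := Real.log_nonneg hfl1
      linarith
    have h5 : ∑ s ∈ Finset.Icc 1 ⌊y⌋₊, dv s ^ (K + 1) / (s.totient : ℝ) ≤
        (2 * L) ^ (2 ^ (K + 2)) := by
      refine h4.trans ?_
      exact pow_le_pow_left₀ hlog0 hlogfl _
    have h6 : y * (y * T ^ (1 - xi) + 1) = T ^ (1 - (xi - 2 * th)) + y := by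
      have : y * (y * T ^ (1 - xi)) = T ^ (1 - (xi - 2 * th)) := by
        rw [hy, ← Real.rpow_add hT0, ← Real.rpow_add hT0]
        congr 1; ring
      rw [mul_add, this, mul_one]
    calc (∑ s ∈ Finset.Icc 1 ⌊y⌋₊, dv s ^ (K + 1) / (s.totient : ℝ)) *
          ((C + 1) * L ^ M * y * (y * T ^ (1 - xi) + 1))
        ≤ (2 * L) ^ (2 ^ (K + 2)) * ((C + 1) * L ^ M * y * (y * T ^ (1 - xi) + 1)) :=
          mul_le_mul_of_nonneg_right h5 (by positivity)
      _ = (C + 1) * 2 ^ (2 ^ (K + 2)) * L ^ (M + 2 ^ (K + 2)) *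
          (y * (y * T ^ (1 - xi) + 1)) := by
          rw [mul_pow, pow_add L M]; ring
      _ = _ := by rw [h6]
  -- the limit
  have hpos : ∀ᶠ T : ℝ in atTop,
      0 ≤ EE th j T ⌊Real.log T ^ A⌋₊ ⌊T ^ th⌋₊ (a T * hi (T ^ xi) h) := by
    filter_upwards with T
    rw [EE]
    refine Finset.sum_nonneg fun s _ => mul_nonneg (by positivity) ?_
    refine Finset.sum_nonneg fun d _ => mul_nonneg (by positivity) ?_
    rw [QQ]
    refine Finset.sum_nonneg fun q _ => mul_nonneg (by positivity) ?_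
    exact primSum_nonneg q _ fun _ => norm_nonneg _
  have hlim : ∀ δ : ℝ, 0 < δ → Tendsto (fun T : ℝ =>
      Real.log T ^ (M + 2 ^ (K + 2)) * T ^ (-δ)) atTop (𝓝 0) := by
    intro δ hδ
    have h1 := isLittleO_log_rpow_rpow_atTop ((M + 2 ^ (K + 2) : ℕ) : ℝ) hδ
    have h2 := h1.tendsto_div_nhds_zero
    refine h2.congr' ?_
    filter_upwards [eventually_gt_atTop (1 : ℝ)] with T hT
    rw [Real.rpow_natCast, Real.rpow_neg (by linarith), div_eq_mul_inv]
  have hlim2 : Tendsto (fun T : ℝ => (C + 1) * 2 ^ (2 ^ (K + 2)) *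
      (Real.log T ^ (M + 2 ^ (K + 2)) * T ^ (-(xi - 2 * th)) +
        Real.log T ^ (M + 2 ^ (K + 2)) * T ^ (-(1 - th)))) atTop (𝓝 0) := by
    have := ((hlim (xi - 2 * th) (by linarith)).add (hlim (1 - th) (by linarith))).const_mul
      ((C + 1) * 2 ^ (2 ^ (K + 2)))
    simpa using this
  refine tendsto_of_tendsto_of_tendsto_of_le_of_le' tendsto_const_nhds hlim2 ?_ ?_
  · filter_upwards [hpos, eventually_gt_atTop (0 : ℝ)] with T h1 h2
    exact div_nonneg h1 h2.le
  · filter_upwards [hbound, eventually_gt_atTop (0 : ℝ)] with T h1 h2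
    rw [div_le_iff₀ h2]
    refine h1.trans (le_of_eq ?_)
    have e1 : T ^ (1 - (xi - 2 * th)) = T ^ (-(xi - 2 * th)) * T := by
      rw [sub_eq_add_neg, add_comm, Real.rpow_add h2, Real.rpow_one]
    have e2 : T ^ th = T ^ (-(1 - th)) * T := by
      rw [← Real.rpow_add_one h2.ne']
      congr 1; ring
    rw [e1, e2]
    ring

end Pool.Agent.Lib.MP_6bc78b_nt.MS.P2.H6

namespace Pool.Agent.Lib.MP_6bc78b_nt.MS.P2

/-- module SMO -/
theorem smo (hdiv : DivStatement) (hspl : SplStatement) (habl : AblStatement)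
    (hwtt : WttStatement) (hwtv : WtvStatement) (hpvc : PvcStatement) : SmoStatement :=
  H6.smo hdiv hspl habl hwtt hwtv hpvc

end Pool.Agent.Lib.MP_6bc78b_nt.MS.P2
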