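import Pool.Agent.Lib.MP_6bc78b_nt.MS.P2.Iface

set_option autoImplicit false

open Filter Topology Finset

namespace Pool.Agent.Lib.MP_6bc78b_nt.MS.P2.H6

/-- the two properties of the smooth factor which are used -/
def Smooth (h : ArithmeticFunction ℝ) : Prop :=
  (∀ n : ℕ, 1 ≤ n → |h n| ≤ 1 + Real.log n) ∧
    ∀ d z : ℕ, 1 ≤ d → 1 ≤ z → |h (d * (z + 1)) - h (d * z)| ≤ 1 / (z : ℝ)

theorem smooth_one : Smooth one := by
  have h1 : ∀ n : ℕ, n ≠ 0 → one n = 1 := by
    intro n hn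
    rw [one, ArithmeticFunction.natCoe_apply, ArithmeticFunction.zeta_apply_ne hn]
    norm_num
  refine ⟨fun n hn => ?_, fun d z hd hz => ?_⟩
  · rw [h1 n (by omega)]
    have : 0 ≤ Real.log n := Real.log_natCast_nonneg n
    rw [abs_one]; linarith
  · rw [h1 _ (by positivity), h1 _ (by positivity), sub_self, abs_zero]
    positivity

theorem smooth_lg : Smooth lg := by
  refine ⟨fun n hn => ?_, fun d z hd hz => ?_⟩
  · rw [lg, ArithmeticFunction.log_apply, abs_of_nonneg (Real.log_natCast_nonneg n)]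
    linarith
  · have hd' : (0 : ℝ) < d := by exact_mod_cast hd
    have hz' : (0 : ℝ) < z := by exact_mod_cast hz
    rw [lg, ArithmeticFunction.log_apply, ArithmeticFunction.log_apply]
    push_cast
    rw [Real.log_mul hd'.ne' (by positivity), Real.log_mul hd'.ne' hz'.ne']
    have e1 : Real.log d + Real.log ((z : ℝ) + 1) - (Real.log d + Real.log z)
        = Real.log (1 + 1 / z) := by
      rw [add_sub_add_left_eq_sub, ← Real.log_div (by positivity) hz'.ne']
      congr 1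
      field_simp
    rw [e1, abs_of_nonneg (Real.log_nonneg (by
      have : 0 < 1 / (z : ℝ) := by positivity
      linarith))]
    have := Real.log_le_sub_one_of_pos (x := 1 + 1 / (z : ℝ)) (by positivity)
    linarith

/-- Polya-Vinogradov on an interval -/
theorem pv_Ioc (hpvc : PvcStatement) {q : ℕ} (hq : 1 < q) {ψ : DirichletCharacter ℂ q}
    (hψ : ψ.IsPrimitive) {a b : ℕ} (hab : a ≤ b) :
    ‖∑ x ∈ Ioc a b, ψ (x : ZMod q)‖ ≤ 2 * (Real.sqrt q * (1 + Real.log q)) := by
  have h1 : ∀ N : ℕ, ‖∑ x ∈ Icc 1 N, ψ (x : ZMod q)‖ ≤ Real.sqrt q * (1 + Real.log q) := by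
    intro N
    have h := hpvc q hq ψ hψ N 1 le_rfl
    have e1 : (Icc 1 N).filter (fun x => Nat.Coprime x 1) = Icc 1 N :=
      Finset.filter_true_of_mem fun x _ => Nat.coprime_one_right x
    have e2 : dv 1 = 1 := by simp [dv]
    rw [e1, e2, one_mul] at h
    exact h
  have h2 : ∑ x ∈ Ioc a b, ψ (x : ZMod q)
      = ∑ x ∈ Icc 1 b, ψ (x : ZMod q) - ∑ x ∈ Icc 1 a, ψ (x : ZMod q) := by
    rw [eq_sub_iff_add_eq, add_comm]
    have e : ∀ n : ℕ, Icc 1 n = Ioc 0 n := fun n => by ext x; simp [Nat.succ_le_iff]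
    rw [e, e, Finset.sum_Ioc_consecutive _ (Nat.zero_le a) hab]
  rw [h2]
  refine (norm_sub_le _ _).trans ?_
  have := h1 a
  have := h1 b
  linarith

/-- the sum over the smooth variable -/
theorem inner_bound (habl : AblStatement) (hpvc : PvcStatement) {h : ArithmeticFunction ℝ}
    (hh : Smooth h) {j M : ℕ} {C T : ℝ} (hC : 0 < C) (hT : 3 ≤ T)
    (hw : ∀ c : ℝ, 1 / T ≤ c → ∀ N : ℕ, (N : ℝ) ≤ 2 * T ^ 2 →
      (∀ x : ℕ, 1 ≤ x → |wt j T (c * x)| ≤ C * Real.log T ^ M) ∧
      ∑ x ∈ Finset.Icc 1 N, |wt j T (c * (x + 1)) - wt j T (c * x)| ≤ C * Real.log T ^ M)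
    {q : ℕ} (hq : 1 < q) (hqT : (q : ℝ) ≤ T) {ψ : DirichletCharacter ℂ q} (hψ : ψ.IsPrimitive)
    {c : ℝ} (hc : 1 / T ≤ c) {d a b : ℕ} (hd : 1 ≤ d) (hb : (d : ℝ) * (b + 1) ≤ 2 * T ^ 2) :
    ‖∑ z ∈ Ioc a b, ψ (z : ZMod q) * ((h (d * z) * wt j T (c * z) : ℝ) : ℂ)‖ ≤
      100 * C * Real.log T ^ (M + 2) * Real.sqrt q := by
  have hT0 : 0 < T := by linarith
  have hL : 1 ≤ Real.log T := by
    rw [Real.le_log_iff_exp_le hT0]
    have := Real.exp_one_lt_d9
    linarith
  set L := Real.log T with hLdef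
  have hL0 : 0 < L := by linarith
  have hCL : 0 < C * L ^ M := by positivity
  have hd' : (1 : ℝ) ≤ d := by exact_mod_cast hd
  have hq' : (1 : ℝ) < q := by exact_mod_cast hq
  have hlogq : Real.log q ≤ L := Real.log_le_log (by linarith) hqT
  have hlogq0 : 0 ≤ Real.log q := Real.log_nonneg hq'.le
  have hsq : 0 < Real.sqrt q := Real.sqrt_pos.2 (by linarith)
  -- trivial case
  rcases lt_or_ge b a with hba | hab
  · rw [Finset.Ioc_eq_empty (by omega), Finset.sum_empty, norm_zero]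
    positivity
  have hbT : (b : ℝ) ≤ 2 * T ^ 2 := by
    have : (0 : ℝ) ≤ b := Nat.cast_nonneg b
    nlinarith
  obtain ⟨hsup, hTV⟩ := hw c hc b hbT
  -- bound of the logarithms
  have hlog2T : Real.log (2 * T ^ 2) ≤ 3 * L := by
    rw [Real.log_mul (by norm_num) (by positivity), Real.log_pow]
    have : Real.log 2 ≤ L := Real.log_le_log (by norm_num) (by linarith)
    push_cast; linarith
  have hhle : ∀ z : ℕ, 1 ≤ z → z ≤ b + 1 → |h (d * z)| ≤ 4 * L := by
    intro z hz hzb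
    have h1 := hh.1 (d * z) (Nat.mul_pos hd hz)
    have h2 : Real.log ((d * z : ℕ) : ℝ) ≤ Real.log (2 * T ^ 2) := by
      refine Real.log_le_log ?_ ?_
      · have : 0 < d * z := Nat.mul_pos hd hz
        exact_mod_cast this
      · push_cast
        have hzb' : (z : ℝ) ≤ b + 1 := by exact_mod_cast hzb
        calc (d : ℝ) * z ≤ d * (b + 1) := mul_le_mul_of_nonneg_left hzb' (by linarith)
          _ ≤ _ := hb
    linarith
  set g : ℕ → ℝ := fun z => h (d * z) * wt j T (c * z) with hg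
  have hgb : |g (b + 1)| ≤ 4 * L * (C * L ^ M) := by
    rw [hg]
    simp only
    rw [abs_mul]
    exact mul_le_mul (hhle (b + 1) (by omega) le_rfl) (hsup (b + 1) (by omega)) (abs_nonneg _)
      (by positivity)
  have hdiff : ∀ z : ℕ, 1 ≤ z → z ≤ b → |g (z + 1) - g z| ≤
      4 * L * |wt j T (c * (z + 1)) - wt j T (c * z)| + 1 / (z : ℝ) * (C * L ^ M) := by
    intro z hz hzb
    have e : g (z + 1) - g z = h (d * (z + 1)) * (wt j T (c * (z + 1)) - wt j T (c * z))
        + (h (d * (z + 1)) - h (d * z)) * wt j T (c * z) := by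
      simp only [hg]
      push_cast
      ring
    rw [e]
    refine (abs_add_le _ _).trans ?_
    rw [abs_mul, abs_mul]
    refine add_le_add ?_ ?_
    · exact mul_le_mul_of_nonneg_right (hhle (z + 1) (by omega) (by omega)) (abs_nonneg _)
    · exact mul_le_mul (hh.2 d z hd hz) (hsup z hz) (abs_nonneg _) (by positivity)
  have hsub : Ioc a b ⊆ Icc 1 b := by
    intro z hz
    rw [Finset.mem_Ioc] at hz
    rw [Finset.mem_Icc]
    omega
  have hTVg : ∑ z ∈ Ioc a b, |g (z + 1) - g z| ≤ 8 * L * (C * L ^ M) := by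
    calc ∑ z ∈ Ioc a b, |g (z + 1) - g z| ≤ ∑ z ∈ Icc 1 b, |g (z + 1) - g z| :=
          Finset.sum_le_sum_of_subset_of_nonneg hsub fun _ _ _ => abs_nonneg _
      _ ≤ ∑ z ∈ Icc 1 b, (4 * L * |wt j T (c * (z + 1)) - wt j T (c * z)|
          + 1 / (z : ℝ) * (C * L ^ M)) := by
          refine Finset.sum_le_sum fun z hz => ?_
          rw [Finset.mem_Icc] at hz
          exact hdiff z hz.1 hz.2
      _ = 4 * L * ∑ z ∈ Icc 1 b, |wt j T (c * (z + 1)) - wt j T (c * z)|
          + (∑ z ∈ Icc 1 b, 1 / (z : ℝ)) * (C * L ^ M) := by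
          rw [Finset.sum_add_distrib, Finset.mul_sum, Finset.sum_mul]
      _ ≤ 4 * L * (C * L ^ M) + (4 * L) * (C * L ^ M) := by
          refine add_le_add (mul_le_mul_of_nonneg_left hTV (by positivity)) ?_
          refine mul_le_mul_of_nonneg_right ?_ hCL.le
          rcases Nat.eq_zero_or_pos b with rfl | hb0
          · simp; linarith
          · have h2 := harmonic_le_one_add_log b
            rw [harmonic_eq_sum_Icc] at h2
            push_cast at h2
            have h3 : ∑ z ∈ Icc 1 b, 1 / (z : ℝ) = ∑ z ∈ Icc 1 b, ((z : ℝ))⁻¹ :=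
              Finset.sum_congr rfl fun z _ => by rw [one_div]
            have h4 : Real.log b ≤ Real.log (2 * T ^ 2) :=
              Real.log_le_log (by exact_mod_cast hb0) hbT
            rw [h3]
            linarith
      _ = 8 * L * (C * L ^ M) := by ring
  have hA := habl.1 a b (fun z => ψ (z : ZMod q)) g
  refine hA.trans ?_
  have hpv := pv_Ioc hpvc hq hψ hab
  set R := Real.sqrt q * (1 + Real.log q) with hR
  have hR0 : 0 < R := by positivity
  have h1 : ‖∑ y ∈ Ioc a b, ψ (y : ZMod q)‖ * |g (b + 1)| ≤ 2 * R * (4 * L * (C * L ^ M)) :=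
    mul_le_mul hpv hgb (abs_nonneg _) (by positivity)
  have h2 : ∑ x ∈ Ioc a b, ‖∑ y ∈ Ioc a x, ψ (y : ZMod q)‖ * |g (x + 1) - g x| ≤
      2 * R * (8 * L * (C * L ^ M)) := by
    calc _ ≤ ∑ x ∈ Ioc a b, 2 * R * |g (x + 1) - g x| := by
          refine Finset.sum_le_sum fun x hx => ?_
          rw [Finset.mem_Ioc] at hx
          exact mul_le_mul_of_nonneg_right (pv_Ioc hpvc hq hψ hx.1.le) (abs_nonneg _)
      _ = 2 * R * ∑ x ∈ Ioc a b, |g (x + 1) - g x| := by rw [Finset.mul_sum]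
      _ ≤ _ := mul_le_mul_of_nonneg_left hTVg (by positivity)
  have h3 : R ≤ Real.sqrt q * (2 * L) := by
    rw [hR]
    exact mul_le_mul_of_nonneg_left (by linarith) hsq.le
  calc _ ≤ 2 * R * (4 * L * (C * L ^ M)) + 2 * R * (8 * L * (C * L ^ M)) := add_le_add h1 h2
    _ = R * (24 * L * (C * L ^ M)) := by ring
    _ ≤ (Real.sqrt q * (2 * L)) * (24 * L * (C * L ^ M)) :=
        mul_le_mul_of_nonneg_right h3 (by positivity)
    _ = 48 * C * L ^ (M + 2) * Real.sqrt q := by ring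
    _ ≤ 100 * C * L ^ (M + 2) * Real.sqrt q := by
        have : 0 ≤ C * L ^ (M + 2) * Real.sqrt q := by positivity
        linarith

end Pool.Agent.Lib.MP_6bc78b_nt.MS.P2.H6
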