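import Pool.Agent.Lib.MP_6bc78b_nt.MS.P2.H6.SmoA

set_option autoImplicit false

open Filter Topology Finset

namespace Pool.Agent.Lib.MP_6bc78b_nt.MS.P2.H6

theorem dv_mono {d s : ℕ} (hd : d ∣ s) (hs : s ≠ 0) : dv d ≤ dv s := by
  rw [dv, dv]
  exact_mod_cast Finset.card_le_card (Nat.divisors_subset_of_dvd hs hd)

theorem one_le_dv {s : ℕ} (hs : s ≠ 0) : 1 ≤ dv s := by
  rw [dv]
  have : 0 < s.divisors.card := Finset.card_pos.2 (Nat.nonempty_divisors.2 hs)
  exact_mod_cast this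

theorem dv_le_self (s : ℕ) : dv s ≤ s := by
  rw [dv]
  exact_mod_cast Nat.card_divisors_le_self s

/-- the inner sum as a sum over an interval -/
theorem inner_eq {N d d1 x : ℕ} (hd : 1 ≤ d) (hd1 : d1 ∣ d) (hx : 1 ≤ x) {Z : ℝ} (hZ : 0 ≤ Z)
    (u h : ArithmeticFunction ℝ) {q : ℕ} (ψ : DirichletCharacter ℂ q) (w : ℝ → ℝ) (m : ℕ) :
    ∑ z ∈ (Icc 1 N).filter (fun z => d * x * z ≤ N),
      ((u (d1 * x) : ℝ) : ℂ) * (((hi Z h) (d / d1 * z) : ℝ) : ℂ) *
        ((w (((d * x * z : ℕ) : ℝ) / m) : ℂ) * ψ ((d * x * z : ℕ) : ZMod q)) =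
    ((u (d1 * x) : ℝ) : ℂ) * ψ ((d * x : ℕ) : ZMod q) *
      ∑ z ∈ Ioc ⌊Z / ((d / d1 : ℕ) : ℝ)⌋₊ (N / (d * x)), ψ (z : ZMod q) *
        ((h (d / d1 * z) * w (((d * x : ℕ) : ℝ) / m * z) : ℝ) : ℂ) := by
  have hd2 : 1 ≤ d / d1 := Nat.div_pos (Nat.le_of_dvd hd hd1) (Nat.pos_of_dvd_of_pos hd1 hd)
  have hd2' : (0 : ℝ) < ((d / d1 : ℕ) : ℝ) := by exact_mod_cast hd2
  have hdx : 0 < d * x := Nat.mul_pos hd hx
  rw [Finset.mul_sum]
  symm
  have hsub : Ioc ⌊Z / ((d / d1 : ℕ) : ℝ)⌋₊ (N / (d * x)) ⊆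
      (Icc 1 N).filter (fun z => d * x * z ≤ N) := by
    intro z hz
    rw [Finset.mem_Ioc] at hz
    have h1 : d * x * z ≤ N := by
      have := (Nat.le_div_iff_mul_le hdx).1 hz.2
      rwa [mul_comm] at this
    rw [Finset.mem_filter, Finset.mem_Icc]
    refine ⟨⟨by omega, ?_⟩, h1⟩
    calc z = 1 * z := (one_mul z).symm
      _ ≤ d * x * z := Nat.mul_le_mul_right z hdx
      _ ≤ N := h1
  have key : ∀ z ∈ Ioc ⌊Z / ((d / d1 : ℕ) : ℝ)⌋₊ (N / (d * x)),
      ((u (d1 * x) : ℝ) : ℂ) * ψ ((d * x : ℕ) : ZMod q) * (ψ (z : ZMod q) *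
        ((h (d / d1 * z) * w (((d * x : ℕ) : ℝ) / m * z) : ℝ) : ℂ)) =
      ((u (d1 * x) : ℝ) : ℂ) * (((hi Z h) (d / d1 * z) : ℝ) : ℂ) *
        ((w (((d * x * z : ℕ) : ℝ) / m) : ℂ) * ψ ((d * x * z : ℕ) : ZMod q)) := by
    intro z hz
    rw [Finset.mem_Ioc] at hz
    have h1 : Z < ((d / d1 * z : ℕ) : ℝ) := by
      have h2 := (Nat.floor_lt (by positivity)).1 hz.1
      rw [div_lt_iff₀ hd2'] at h2
      push_cast at h2 ⊢
      linarith
    have h2 : (hi Z h) (d / d1 * z) = h (d / d1 * z) := by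
      simp only [hi, ArithmeticFunction.coe_mk]
      rw [if_pos h1]
    have h3 : (((d * x : ℕ) : ℝ) / m * z) = (((d * x * z : ℕ) : ℝ) / m) := by
      push_cast; ring
    have h4 : ψ ((d * x * z : ℕ) : ZMod q) = ψ ((d * x : ℕ) : ZMod q) * ψ (z : ZMod q) := by
      rw [Nat.cast_mul (d * x) z, map_mul]
    rw [h2, h3, h4]
    push_cast
    ring
  rw [Finset.sum_congr rfl key]
  refine Finset.sum_subset hsub ?_
  intro z hz hz'
  rw [Finset.mem_filter, Finset.mem_Icc] at hz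
  have h1 : z ≤ N / (d * x) := (Nat.le_div_iff_mul_le hdx).2 (by rw [mul_comm]; exact hz.2)
  have h2 : z ≤ ⌊Z / ((d / d1 : ℕ) : ℝ)⌋₊ := by
    by_contra hcon
    exact hz' (Finset.mem_Ioc.2 ⟨by omega, h1⟩)
  have h3 : ¬ Z < ((d / d1 * z : ℕ) : ℝ) := by
    rw [not_lt]
    have h4 := (Nat.le_floor_iff (by positivity)).1 h2
    rw [le_div_iff₀ hd2'] at h4
    push_cast at h4 ⊢
    linarith
  have h5 : (hi Z h) (d / d1 * z) = 0 := by
    simp only [hi, ArithmeticFunction.coe_mk]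
    rw [if_neg h3]
  rw [h5]
  simp

theorem VV_bound (hdiv : DivStatement) (hspl : SplStatement) (habl : AblStatement)
    (hwtt : WttStatement) (hwtv : WtvStatement) (hpvc : PvcStatement) {th xi : ℝ}
    (hth : 0 < th) (hth2 : th < 1 / 2) (hxi : 2 * th < xi) (j : ℕ)
    {a : ℝ → ArithmeticFunction ℝ} (ha : DB a) {h : ArithmeticFunction ℝ} (hh : Smooth h) :
    ∃ (C : ℝ) (M K : ℕ), 0 < C ∧ ∀ᶠ T : ℝ in atTop, ∀ q s d : ℕ, 1 < q → 1 ≤ s → d ∣ s →
      ((q * s : ℕ) : ℝ) ≤ T ^ th → ∀ ψ : DirichletCharacter ℂ q, ψ.IsPrimitive →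
        ‖VV j T (a T * hi (T ^ xi) h) (q * s) d ψ‖ ≤
          C * Real.log T ^ M * dv s ^ K * ((q * s : ℕ) : ℝ) * T ^ (1 - xi) * Real.sqrt q + 1 := by
  obtain ⟨K, hK⟩ := ha
  obtain ⟨C, M, hC, hwv⟩ := hwtv j
  have hwt := hwtt j (2 * K + 8)
  refine ⟨100 * (K + 1) * C * 2 ^ (2 ^ K), K + (M + 2) + 2 ^ K, K + 1, by positivity, ?_⟩
  have hlog : ∀ᶠ T : ℝ in atTop, 3 * (K : ℝ) * Real.log T ^ (K + 1) ≤ T := by
    have h1 : (fun T : ℝ => Real.log T ^ (K + 1)) =o[atTop] (fun T : ℝ => T) := by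
      have := Real.isLittleO_pow_log_id_atTop (n := K + 1)
      exact this
    have h2 := h1.def (c := 1 / (3 * (K : ℝ) + 1)) (by positivity)
    filter_upwards [h2, eventually_ge_atTop (3 : ℝ)] with T hT hT3
    have hL : 0 ≤ Real.log T := Real.log_nonneg (by linarith)
    rw [Real.norm_eq_abs, Real.norm_eq_abs, abs_of_nonneg (by positivity),
      abs_of_nonneg (by linarith)] at hT
    have h3 : (3 * (K : ℝ) + 1) * Real.log T ^ (K + 1) ≤ T := by
      have := mul_le_mul_of_nonneg_left hT (by positivity : (0 : ℝ) ≤ 3 * (K : ℝ) + 1)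
      calc (3 * (K : ℝ) + 1) * Real.log T ^ (K + 1)
          ≤ (3 * (K : ℝ) + 1) * (1 / (3 * (K : ℝ) + 1) * T) := this
        _ = T := by field_simp
    have h4 : 0 ≤ Real.log T ^ (K + 1) := by positivity
    linarith
  filter_upwards [hwv, hwt, hlog, eventually_ge_atTop (3 : ℝ)] with T hwvT hwtT hlogT hT3
  intro q s d hq hs hds hqs ψ hψ
  have hT0 : 0 < T := by linarith
  have hT1 : 1 ≤ T := by linarith
  have hL : 1 ≤ Real.log T := by
    rw [Real.le_log_iff_exp_le hT0]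
    have := Real.exp_one_lt_d9
    linarith
  set L := Real.log T with hLdef
  have hL0 : 0 < L := by linarith
  have hd : 1 ≤ d := Nat.pos_of_dvd_of_pos hds hs
  have hdsle : d ≤ s := Nat.le_of_dvd hs hds
  have hq0 : 0 < q := by omega
  set m : ℕ := q * s with hm
  have hm0 : 0 < m := Nat.mul_pos hq0 hs
  have hm0' : (0 : ℝ) < m := by exact_mod_cast hm0
  have hThT : T ^ th ≤ T := by
    calc T ^ th ≤ T ^ (1 : ℝ) := Real.rpow_le_rpow_of_exponent_le hT1 (by linarith)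
      _ = T := Real.rpow_one T
  have hmT : (m : ℝ) ≤ T := hqs.trans hThT
  have hqm : (q : ℝ) ≤ m := by
    rw [hm]; exact_mod_cast Nat.le_mul_of_pos_right q hs
  have hsm : (s : ℝ) ≤ m := by
    rw [hm]; exact_mod_cast Nat.le_mul_of_pos_left s hq0
  have hqT : (q : ℝ) ≤ T := hqm.trans hmT
  have hsq : 0 < Real.sqrt q := Real.sqrt_pos.2 (by exact_mod_cast hq0)
  set N : ℕ := ⌊T ^ 2⌋₊ with hN
  have hNT : (N : ℝ) ≤ T ^ 2 := Nat.floor_le (by positivity)
  have hTT2 : T ≤ T ^ 2 := by nlinarith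
  -- splitting
  have hVV : VV j T (a T * hi (T ^ xi) h) m d ψ =
      ∑ d1 ∈ d.divisors, ∑ x ∈ (Finset.Icc 1 N).filter (fun x => Nat.Coprime x (d / d1)),
        ((a T (d1 * x) : ℝ) : ℂ) * ψ ((d * x : ℕ) : ZMod q) *
      ∑ z ∈ Ioc ⌊T ^ xi / ((d / d1 : ℕ) : ℝ)⌋₊ (N / (d * x)), ψ (z : ZMod q) *
        ((h (d / d1 * z) * wt j T (((d * x : ℕ) : ℝ) / m * z) : ℝ) : ℂ) := by
    have e1 := hspl d N hd (a T) (hi (T ^ xi) h)
      (fun n => (wt j T ((n : ℝ) / m) : ℂ) * ψ (n : ZMod q))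
    have e2 : VV j T (a T * hi (T ^ xi) h) m d ψ =
        ∑ n ∈ (Finset.Icc 1 N).filter (fun n => d ∣ n),
          ((((a T) * (hi (T ^ xi) h)) n : ℝ) : ℂ) *
            ((wt j T ((n : ℝ) / m) : ℂ) * ψ (n : ZMod q)) := by
      rw [VV]
      refine Finset.sum_congr rfl fun n _ => ?_
      push_cast
      ring
    rw [e2, e1]
    refine Finset.sum_congr rfl fun d1 hd1 => Finset.sum_congr rfl fun x hx => ?_
    rw [Finset.mem_filter, Finset.mem_Icc] at hx
    exact inner_eq hd (Nat.dvd_of_mem_divisors hd1) hx.1.1 (by positivity) (a T) h ψ (wt j T) m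
  rw [hVV]
  -- the bound of one term
  set B : ℝ := 100 * C * L ^ (M + 2) * Real.sqrt q with hB
  have hB0 : 0 ≤ B := by positivity
  set t : ℝ := 1 / T ^ 4 with ht
  have hterm : ∀ d1 ∈ d.divisors, ∀ x ∈ (Finset.Icc 1 N).filter (fun x => Nat.Coprime x (d / d1)),
      ‖((a T (d1 * x) : ℝ) : ℂ) * ψ ((d * x : ℕ) : ZMod q) *
      ∑ z ∈ Ioc ⌊T ^ xi / ((d / d1 : ℕ) : ℝ)⌋₊ (N / (d * x)), ψ (z : ZMod q) *
        ((h (d / d1 * z) * wt j T (((d * x : ℕ) : ℝ) / m * z) : ℝ) : ℂ)‖ ≤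
      (if (x : ℝ) ≤ m * T ^ (1 - xi) / d1 then K * L ^ K * dv (d1 * x) ^ K * B else 0) + t := by
    intro d1 hd1 x hx
    rw [Finset.mem_filter, Finset.mem_Icc] at hx
    have hd1d : d1 ∣ d := Nat.dvd_of_mem_divisors hd1
    have hd1pos : 0 < d1 := Nat.pos_of_dvd_of_pos hd1d hd
    have hd1' : (0 : ℝ) < d1 := by exact_mod_cast hd1pos
    have hd2 : 1 ≤ d / d1 := Nat.div_pos (Nat.le_of_dvd hd hd1d) hd1pos
    have hd2' : (0 : ℝ) < ((d / d1 : ℕ) : ℝ) := by exact_mod_cast hd2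
    have hdd : d / d1 ≤ d := Nat.div_le_self d d1
    have hmul : d1 * (d / d1) = d := Nat.mul_div_cancel' hd1d
    have hx1 : 1 ≤ x := hx.1.1
    have hdx : 0 < d * x := Nat.mul_pos hd hx1
    have ht0 : 0 ≤ t := by positivity
    have hRHS0 : 0 ≤ (if (x : ℝ) ≤ m * T ^ (1 - xi) / d1 then K * L ^ K * dv (d1 * x) ^ K * B
        else 0) := by
      split_ifs
      · have : 0 ≤ dv (d1 * x) := Nat.cast_nonneg _
        positivity
      · exact le_rfl
    -- empty range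
    rcases Nat.eq_zero_or_pos (N / (d * x)) with hz0 | hzpos
    · rw [hz0, Finset.Ioc_eq_empty (by omega), Finset.sum_empty, mul_zero, norm_zero]
      linarith
    have hdxN : d * x ≤ N := by
      by_contra hcon
      rw [Nat.div_eq_of_lt (by omega)] at hzpos
      omega
    have hdxT : ((d * x : ℕ) : ℝ) ≤ T ^ 2 := le_trans (by exact_mod_cast hdxN) hNT
    have hd1x : d1 * x ≤ d * x := Nat.mul_le_mul_right x (Nat.le_of_dvd hd hd1d)
    have hd1xT : ((d1 * x : ℕ) : ℝ) ≤ T ^ 2 := le_trans (by exact_mod_cast hd1x) hdxT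
    have hab := hK T hT3 (d1 * x) hd1xT
    set c : ℝ := ((d * x : ℕ) : ℝ) / m with hc
    have hcT : 1 / T ≤ c := by
      rw [hc, div_le_div_iff₀ hT0 hm0', one_mul]
      have : (1 : ℝ) ≤ ((d * x : ℕ) : ℝ) := by exact_mod_cast hdx
      nlinarith
    have hBz : (N / (d * x)) * (d * x) ≤ N := Nat.div_mul_le_self N (d * x)
    have hd2B : ((d / d1 : ℕ) : ℝ) * (((N / (d * x) : ℕ) : ℝ) + 1) ≤ 2 * T ^ 2 := by
      have h1 : (d / d1) * (N / (d * x)) ≤ N := by
        calc (d / d1) * (N / (d * x)) ≤ (d * x) * (N / (d * x)) :=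
              Nat.mul_le_mul_right _ (hdd.trans (Nat.le_mul_of_pos_right d hx1))
          _ ≤ N := by rw [mul_comm]; exact hBz
      have h2 : ((d / d1 : ℕ) : ℝ) * ((N / (d * x) : ℕ) : ℝ) ≤ T ^ 2 :=
        le_trans (by exact_mod_cast h1) hNT
      have h3 : ((d / d1 : ℕ) : ℝ) ≤ T ^ 2 := by
        have : ((d / d1 : ℕ) : ℝ) ≤ s := by exact_mod_cast hdd.trans hdsle
        linarith
      linarith
    have hnorm : ‖((a T (d1 * x) : ℝ) : ℂ) * ψ ((d * x : ℕ) : ZMod q)‖ ≤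
        K * L ^ K * dv (d1 * x) ^ K := by
      rw [norm_mul, Complex.norm_real, Real.norm_eq_abs]
      calc |a T (d1 * x)| * ‖ψ ((d * x : ℕ) : ZMod q)‖ ≤ |a T (d1 * x)| * 1 :=
            mul_le_mul_of_nonneg_left (ψ.norm_le_one _) (abs_nonneg _)
        _ ≤ _ := by rw [mul_one]; exact hab
    have hdv0 : 0 ≤ dv (d1 * x) := Nat.cast_nonneg _
    rw [norm_mul]
    by_cases hxs : (x : ℝ) ≤ m * T ^ (1 - xi) / d1
    · rw [if_pos hxs]
      have hin := inner_bound habl hpvc hh (j := j) hC hT3 hwvT hq hqT hψ hcT hd2 hd2B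
        (a := ⌊T ^ xi / ((d / d1 : ℕ) : ℝ)⌋₊)
      calc _ ≤ (K * L ^ K * dv (d1 * x) ^ K) * B :=
            mul_le_mul hnorm hin (norm_nonneg _) (by positivity)
        _ ≤ K * L ^ K * dv (d1 * x) ^ K * B + t := by linarith
    · rw [if_neg hxs, zero_add]
      rw [not_le, div_lt_iff₀ hd1'] at hxs
      -- all terms are tiny
      have hz : ∀ z ∈ Ioc ⌊T ^ xi / ((d / d1 : ℕ) : ℝ)⌋₊ (N / (d * x)),
          ‖ψ (z : ZMod q) * ((h (d / d1 * z) * wt j T (c * z) : ℝ) : ℂ)‖ ≤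
            3 * L * (1 / T ^ (2 * K + 8)) := by
        intro z hz
        rw [Finset.mem_Ioc] at hz
        have hz1 : 1 ≤ z := by omega
        have h2 := (Nat.floor_lt (by positivity)).1 hz.1
        rw [div_lt_iff₀ hd2'] at h2
        have hcz : T ≤ c * z := by
          have e1 : c * z = (d1 * x) * (z * ((d / d1 : ℕ) : ℝ)) / m := by
            have : (d : ℝ) = d1 * ((d / d1 : ℕ) : ℝ) := by
              rw [← Nat.cast_mul, hmul]
            rw [hc]
            push_cast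
            rw [this]
            ring
          rw [e1, le_div_iff₀ hm0']
          have e2 : T * m = (m * T ^ (1 - xi)) * T ^ xi := by
            rw [mul_assoc, ← Real.rpow_add hT0]
            rw [sub_add_cancel, Real.rpow_one]
            ring
          rw [e2]
          refine mul_le_mul ?_ h2.le (by positivity) (by positivity)
          linarith
        have hcz0 : 0 < c * z := by linarith
        have hw := hwtT.2 (c * z) (by linarith)
        have hw' : |wt j T (c * z)| ≤ 1 / T ^ (2 * K + 8) := by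
          refine hw.trans ?_
          exact one_div_le_one_div_of_le (by positivity) (pow_le_pow_left₀ hT0.le hcz _)
        have hhz : |h (d / d1 * z)| ≤ 3 * L := by
          have h3 := hh.1 (d / d1 * z) (Nat.mul_pos hd2 hz1)
          have h4 : d / d1 * z ≤ N := by
            calc d / d1 * z ≤ (d * x) * (N / (d * x)) :=
                  Nat.mul_le_mul (hdd.trans (Nat.le_mul_of_pos_right d hx1)) hz.2
              _ ≤ N := by rw [mul_comm]; exact hBz
          have h5 : Real.log ((d / d1 * z : ℕ) : ℝ) ≤ 2 * L := by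
            have e : 2 * L = Real.log (T ^ 2) := by rw [Real.log_pow]; push_cast; ring
            rw [e]
            refine Real.log_le_log ?_ (le_trans (by exact_mod_cast h4) hNT)
            exact_mod_cast Nat.mul_pos hd2 hz1
          linarith
        rw [norm_mul, Complex.norm_real, Real.norm_eq_abs, abs_mul]
        calc ‖ψ (z : ZMod q)‖ * (|h (d / d1 * z)| * |wt j T (c * z)|)
            ≤ 1 * ((3 * L) * (1 / T ^ (2 * K + 8))) :=
              mul_le_mul (ψ.norm_le_one _) (mul_le_mul hhz hw' (abs_nonneg _) (by positivity))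
                (by positivity) zero_le_one
          _ = _ := by ring
      have hsumz : ‖∑ z ∈ Ioc ⌊T ^ xi / ((d / d1 : ℕ) : ℝ)⌋₊ (N / (d * x)), ψ (z : ZMod q) *
          ((h (d / d1 * z) * wt j T (c * z) : ℝ) : ℂ)‖ ≤
          T ^ 2 * (3 * L * (1 / T ^ (2 * K + 8))) := by
        refine (norm_sum_le_of_le _ hz).trans ?_
        rw [Finset.sum_const, nsmul_eq_mul]
        refine mul_le_mul_of_nonneg_right ?_ (by positivity)
        rw [Nat.card_Ioc]
        have : ((N / (d * x) - ⌊T ^ xi / ((d / d1 : ℕ) : ℝ)⌋₊ : ℕ) : ℝ) ≤ N := by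
          exact_mod_cast (Nat.sub_le _ _).trans (Nat.div_le_self _ _)
        linarith
      have hdvK : dv (d1 * x) ^ K ≤ T ^ (2 * K) := by
        rw [pow_mul]
        exact pow_le_pow_left₀ hdv0 ((dv_le_self _).trans hd1xT) K
      calc _ ≤ (K * L ^ K * dv (d1 * x) ^ K) * (T ^ 2 * (3 * L * (1 / T ^ (2 * K + 8)))) :=
            mul_le_mul hnorm hsumz (norm_nonneg _) (by positivity)
        _ ≤ (K * L ^ K * T ^ (2 * K)) * (T ^ 2 * (3 * L * (1 / T ^ (2 * K + 8)))) := by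
            refine mul_le_mul_of_nonneg_right ?_ (by positivity)
            exact mul_le_mul_of_nonneg_left hdvK (by positivity)
        _ = (3 * (K : ℝ) * L ^ (K + 1)) * (1 / T ^ 6) := by
            rw [pow_add T (2 * K) 8]
            field_simp
            ring
        _ ≤ T * (1 / T ^ 6) := mul_le_mul_of_nonneg_right hlogT (by positivity)
        _ = 1 / T ^ 5 := by field_simp
        _ ≤ t := by
            rw [ht]
            exact one_div_le_one_div_of_le (by positivity)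
              (pow_le_pow_right₀ hT1 (by norm_num))
  -- summation
  have hdvs : 1 ≤ dv s := one_le_dv (by omega)
  have hX0 : ∀ d1 ∈ d.divisors, ∑ x ∈ (Finset.Icc 1 N).filter (fun x => Nat.Coprime x (d / d1)),
      ((if (x : ℝ) ≤ m * T ^ (1 - xi) / d1 then K * L ^ K * dv (d1 * x) ^ K * B else 0) + t) ≤
      (K + 1) * L ^ K * B * (dv s ^ K * (m * T ^ (1 - xi)) * (2 * L) ^ (2 ^ K)) + T ^ 2 * t := by
    intro d1 hd1
    have hd1d : d1 ∣ d := Nat.dvd_of_mem_divisors hd1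
    have hd1pos : 0 < d1 := Nat.pos_of_dvd_of_pos hd1d hd
    have hd1' : (1 : ℝ) ≤ d1 := by exact_mod_cast hd1pos
    have ht0 : 0 ≤ t := by positivity
    rw [Finset.sum_add_distrib]
    refine add_le_add ?_ ?_
    · set X : ℝ := m * T ^ (1 - xi) / d1 with hX
      have hXle : X ≤ m * T ^ (1 - xi) := by
        rw [hX]; exact div_le_self (by positivity) hd1'
      have hXnn : 0 ≤ X := by positivity
      have hXT : X ≤ T := by
        refine hXle.trans ?_
        calc (m : ℝ) * T ^ (1 - xi) ≤ T ^ th * T ^ (1 - xi) :=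
              mul_le_mul_of_nonneg_right hqs (by positivity)
          _ = T ^ (th + (1 - xi)) := by rw [← Real.rpow_add hT0]
          _ ≤ T ^ (1 : ℝ) := Real.rpow_le_rpow_of_exponent_le hT1 (by linarith)
          _ = T := Real.rpow_one T
      have hdvnn : ∀ x : ℕ, 0 ≤ K * L ^ K * dv (d1 * x) ^ K * B := fun x => by
        have : 0 ≤ dv (d1 * x) := Nat.cast_nonneg _
        positivity
      have h1 : ∑ x ∈ (Finset.Icc 1 N).filter (fun x => Nat.Coprime x (d / d1)),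
          (if (x : ℝ) ≤ X then K * L ^ K * dv (d1 * x) ^ K * B else 0) ≤
          ∑ x ∈ Finset.Icc 1 ⌊X⌋₊, K * L ^ K * dv (d1 * x) ^ K * B := by
        rw [← Finset.sum_filter]
        refine Finset.sum_le_sum_of_subset_of_nonneg ?_ (fun x _ _ => hdvnn x)
        intro x hx
        rw [Finset.mem_filter, Finset.mem_filter, Finset.mem_Icc] at hx
        rw [Finset.mem_Icc]
        exact ⟨hx.1.1.1, Nat.le_floor hx.2⟩
      refine h1.trans ?_
      rcases Nat.eq_zero_or_pos ⌊X⌋₊ with h0 | hpos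
      · rw [h0]
        simp only [Finset.Icc_eq_empty (by omega : ¬ 1 ≤ 0), Finset.sum_empty]
        positivity
      · have h2 : ∑ x ∈ Finset.Icc 1 ⌊X⌋₊, K * L ^ K * dv (d1 * x) ^ K * B =
            K * L ^ K * B * ∑ x ∈ Finset.Icc 1 ⌊X⌋₊, dv (d1 * x) ^ K := by
          rw [Finset.mul_sum]
          refine Finset.sum_congr rfl fun x _ => by ring
        rw [h2]
        have h3 := hdiv.2.2.2.2 K d1 ⌊X⌋₊ hpos
        have hfl : ((⌊X⌋₊ : ℕ) : ℝ) ≤ X := Nat.floor_le hXnn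
        have hfl1 : (1 : ℝ) ≤ ((⌊X⌋₊ : ℕ) : ℝ) := by exact_mod_cast hpos
        have hlogfl : 1 + Real.log ((⌊X⌋₊ : ℕ) : ℝ) ≤ 2 * L := by
          have : Real.log ((⌊X⌋₊ : ℕ) : ℝ) ≤ L :=
            Real.log_le_log (by linarith) (hfl.trans hXT)
          linarith
        have hlog0 : 0 ≤ 1 + Real.log ((⌊X⌋₊ : ℕ) : ℝ) := by
          have := Real.log_nonneg hfl1
          linarith
        have hdv1 : dv d1 ≤ dv s := dv_mono (hd1d.trans hds) (by omega)
        have hdv10 : 0 ≤ dv d1 := Nat.cast_nonneg _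
        have h4 : dv d1 ^ K * ((⌊X⌋₊ : ℕ) : ℝ) * (1 + Real.log ((⌊X⌋₊ : ℕ) : ℝ)) ^ (2 ^ K) ≤
            dv s ^ K * (m * T ^ (1 - xi)) * (2 * L) ^ (2 ^ K) := by
          refine mul_le_mul (mul_le_mul (pow_le_pow_left₀ hdv10 hdv1 K) (hfl.trans hXle)
            (by positivity) (by positivity)) (pow_le_pow_left₀ hlog0 hlogfl _) (by positivity)
            (by positivity)
        calc K * L ^ K * B * ∑ x ∈ Finset.Icc 1 ⌊X⌋₊, dv (d1 * x) ^ K
            ≤ K * L ^ K * B * (dv s ^ K * (m * T ^ (1 - xi)) * (2 * L) ^ (2 ^ K)) :=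
              mul_le_mul_of_nonneg_left (h3.trans h4) (by positivity)
          _ ≤ _ := by
              have : 0 ≤ L ^ K * B * (dv s ^ K * (m * T ^ (1 - xi)) * (2 * L) ^ (2 ^ K)) := by
                positivity
              nlinarith
    · rw [Finset.sum_const, nsmul_eq_mul]
      refine mul_le_mul_of_nonneg_right ?_ ht0
      refine le_trans ?_ hNT
      calc (((Finset.Icc 1 N).filter (fun x => Nat.Coprime x (d / d1))).card : ℝ)
          ≤ ((Finset.Icc 1 N).card : ℝ) := by exact_mod_cast Finset.card_filter_le _ _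
        _ = N := by rw [Nat.card_Icc]; simp
  have hfinal : ‖∑ d1 ∈ d.divisors, ∑ x ∈ (Finset.Icc 1 N).filter (fun x => Nat.Coprime x (d / d1)),
        ((a T (d1 * x) : ℝ) : ℂ) * ψ ((d * x : ℕ) : ZMod q) *
      ∑ z ∈ Ioc ⌊T ^ xi / ((d / d1 : ℕ) : ℝ)⌋₊ (N / (d * x)), ψ (z : ZMod q) *
        ((h (d / d1 * z) * wt j T (((d * x : ℕ) : ℝ) / m * z) : ℝ) : ℂ)‖ ≤
      ∑ d1 ∈ d.divisors, ((K + 1) * L ^ K * B *
        (dv s ^ K * (m * T ^ (1 - xi)) * (2 * L) ^ (2 ^ K)) + T ^ 2 * t) := by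
    refine (norm_sum_le _ _).trans (Finset.sum_le_sum fun d1 hd1 => ?_)
    refine ((norm_sum_le _ _).trans (Finset.sum_le_sum fun x hx => ?_)).trans (hX0 d1 hd1)
    exact hterm d1 hd1 x hx
  refine hfinal.trans ?_
  rw [Finset.sum_const, nsmul_eq_mul]
  have hcard : ((d.divisors.card : ℕ) : ℝ) ≤ dv s := dv_mono hds (by omega)
  have hcardT : ((d.divisors.card : ℕ) : ℝ) ≤ T := by
    have := dv_le_self d
    have h1 : (d : ℝ) ≤ s := by exact_mod_cast hdsle
    have h2 : ((d.divisors.card : ℕ) : ℝ) = dv d := rfl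
    linarith
  rw [mul_add]
  refine add_le_add ?_ ?_
  · calc ((d.divisors.card : ℕ) : ℝ) * ((K + 1) * L ^ K * B *
          (dv s ^ K * (m * T ^ (1 - xi)) * (2 * L) ^ (2 ^ K)))
        ≤ dv s * ((K + 1) * L ^ K * B *
          (dv s ^ K * (m * T ^ (1 - xi)) * (2 * L) ^ (2 ^ K))) :=
          mul_le_mul_of_nonneg_right hcard (by positivity)
      _ = 100 * (K + 1) * C * 2 ^ (2 ^ K) * L ^ (K + (M + 2) + 2 ^ K) * dv s ^ (K + 1) * m *
          T ^ (1 - xi) * Real.sqrt q := by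
          rw [hB, mul_pow, pow_add L (K + (M + 2)) (2 ^ K), pow_add L K (M + 2), pow_succ (dv s) K]
          ring
  · calc ((d.divisors.card : ℕ) : ℝ) * (T ^ 2 * t) ≤ T * (T ^ 2 * t) :=
          mul_le_mul_of_nonneg_right hcardT (by positivity)
      _ = 1 / T := by rw [ht]; field_simp
      _ ≤ 1 := by rw [div_le_one hT0]; exact hT1

end Pool.Agent.Lib.MP_6bc78b_nt.MS.P2.H6
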